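import Pool.Agent.Lib.MP_337e34_al.Main

set_option autoImplicit false

/-!
A counterexample to Q1 is an uncountable group with finite centre and of prime exponent `p ≥ 5` in
which every non-central element generates an infinite subgroup together with all but finitely many elements.
-/

namespace Pool.Agent.Results.MP_337e34_al.MonstersOnly

open Pool.Agent.MP_337e34_al

theorem result {G : Type*} [Group G]
    (hyp : ∀ H : Subgroup G, (H : Set G).Countable → MarkovCofinite H)
    (hG : ¬ MarkovCofinite G) :
    Uncountable G ∧ (Subgroup.center G : Set G).Finite ∧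
      ∃ p : ℕ, p.Prime ∧ 5 ≤ p ∧ (∀ x : G, x ^ p = 1) ∧
      ∀ g : G, g ∉ Subgroup.center G → {x : G | Finite (Subgroup.closure {g, x})}.Finite :=
  structure_thm hyp hG

end Pool.Agent.Results.MP_337e34_al.MonstersOnly
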