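import Pool.Agent.Lib.MP_337e34_al.Main

set_option autoImplicit false

/-!
Q1 holds for every group `G` in which countable sets lie in countable subgroups onto which the
retractions of `G` separate the points of `G`, in particular for every relatively free group.
-/

namespace Pool.Agent.Results.MP_337e34_al.Retractions

open Pool.Agent.MP_337e34_al

theorem result {G : Type*} [Group G]
    (hyp : ∀ H : Subgroup G, (H : Set G).Countable → MarkovCofinite H)
    (h : (∀ D : Set G, D.Countable → ∃ H : Subgroup G, (H : Set G).Countable ∧ D ⊆ H ∧
        ∀ g : G, g ≠ 1 → ∃ ρ : G →* H, (∀ h : H, ρ h = h) ∧ ρ g ≠ 1) ∨ RelativelyFree G) :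
    MarkovCofinite G :=
  retract_thm hyp h

end Pool.Agent.Results.MP_337e34_al.Retractions
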